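import Pool.Agent.Lib.FlA.Main

/-!
# Quasi-homogeneity of flopping singularities and of their potentials

For the algebraic data of a flopping contraction (`IsFlopModel`): an isolated hypersurface
singularity `R` of dimension 3, a Cohen-Macaulay endomorphism algebra `A = End_R(R ⊕ N_1 ⊕ .. ⊕ N_t)`
and a potential `W` whose Jacobi algebra is `A`, let `Φ` be the restriction of `W` to the vertices
`1, .., t`. The contraction algebra `A / A e_0 A` is the Jacobi algebra of `Φ`, and the following
are equivalent: `R` is quasi-homogeneous; `Φ` is quasi-homogeneous; the class of `Φ` in the zeroth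
Hochschild homology of its Jacobi algebra is zero.
-/

set_option autoImplicit false

namespace Pool.Agent.Results.MP_03045c_ag.AllFlops

open Pool.Agent.Flop

theorem result {V E : Type} [Fintype V] [DecidableEq V] [Fintype E] [DecidableEq E] (Q : Qv V E)
    (o : V) {R A : Type} [CommRing R] [Algebra ℂ R] [Ring A] [Algebra ℂ A] [Algebra R A]
    [IsScalarTower ℂ R A] (N : V → Type) [∀ i, AddCommGroup (N i)] [∀ i, Module R (N i)]
    (W : Hat Q) (π : Hat Q →ₐ[ℂ] A) (h : IsFlopModel R Q o N W π) :
    (∀ f : Hat Q, π f ∈ TwoSidedIdeal.span {π (idem Q o)} ↔ res o f ∈ jac (res o W)) ∧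
      (IsQHRing R ↔ IsQH (res o W)) ∧ (IsQH (res o W) ↔ ClassZero (res o W)) :=
  h.main

end Pool.Agent.Results.MP_03045c_ag.AllFlops
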