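import Pool.Agent.Lib.MP_03045c_ag.Main
import Pool.Agent.Lib.MP_03045c_ag.ContrGen

/-!
# Quasi-homogeneity of flopping singularities of type A and of their potentials

For all pairwise different power series `g_0, ..., g_{m+1}` without constant term, let `R` be the
complete local ring `u v = prod_j (y - g_j(x))` and `N_i = (u, prod_{l < i} (y - g_l(x)))`. The
contraction algebra `End_R(N_0 + ... + N_{m+1}) / (e_0)` of the flop (small resolution with `m + 1`
exceptional curves) is the Jacobi algebra of an explicit potential, and the following are
equivalent: `R` is quasi-homogeneous; the potential is quasi-homogeneous; the class of the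
potential in the zeroth Hochschild homology of the Jacobi algebra is zero; some power series
`p(x, y)` restricts to the integral of `g_j` on every branch `y = g_j(x)`.
-/

set_option autoImplicit false

namespace Pool.Agent.Results.MP_03045c_ag.TypeA

open Pool.Agent.Flop

theorem result (m : ℕ) (g : Fin (m + 2) → PowerSeries ℂ)
    (h0 : ∀ j, PowerSeries.constantCoeff (g j) = 0) (hg : Function.Injective g) :
    IsContrPotI (pot g) (NN g) 0 Fin.succ ∧ (IsQHRing (Sing g) ↔ IsQH (pot g)) ∧
      (IsQH (pot g) ↔ ClassZero (pot g)) ∧ (ClassZero (pot g) ↔ Crit g) :=
  ⟨isContrPotI_pot g h0 hg, classZero_iff h0 hg⟩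

end Pool.Agent.Results.MP_03045c_ag.TypeA
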